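import Pool.Agent.Helper97.Ku.GoalsA

/-! Packet INF: the Boolean-valued universe satisfies the axiom of infinity. -/

namespace Pool.Agent.Helper97.Ku.PkInf

universe u

open BSet

variable {L : Type u} [CompleteBooleanAlgebra L]

/-- The Boolean-valued natural numbers. -/
def nat (L : Type u) [CompleteBooleanAlgebra L] : ℕ → BSet L
  | 0 => mk PEmpty PEmpty.elim PEmpty.elim
  | n + 1 => mk (Option (nat L n).ix) (fun o => o.elim (nat L n) (nat L n).el)
      (fun o => o.elim ⊤ (nat L n).bv)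

theorem mem_zero (z : BSet L) : z.mem (nat L 0) = ⊥ := by
  change z.mem (mk PEmpty PEmpty.elim PEmpty.elim) = ⊥
  rw [mem_mk, iSup_of_empty]

theorem mem_succ (z : BSet L) (n : ℕ) :
    z.mem (nat L (n + 1)) = z.mem (nat L n) ⊔ z.eq (nat L n) := by
  change z.mem (mk (Option (nat L n).ix) (fun o => o.elim (nat L n) (nat L n).el)
      (fun o => o.elim ⊤ (nat L n).bv)) = _
  rw [mem_mk, iSup_option, mem_def z (nat L n)]
  simp only [Option.elim]
  rw [top_inf_eq, sup_comm]

/-- The Boolean-valued set of the natural numbers. -/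
def om (L : Type u) [CompleteBooleanAlgebra L] : BSet L :=
  mk (ULift.{u} ℕ) (fun n => nat L n.down) (fun _ => ⊤)

theorem mem_om (z : BSet L) : z.mem (om L) = ⨆ n : ULift.{u} ℕ, z.eq (nat L n.down) := by
  change z.mem (mk (ULift.{u} ℕ) (fun n => nat L n.down) (fun _ => ⊤)) = _
  rw [mem_mk]
  simp only [top_inf_eq]

theorem nat_mem_om (n : ℕ) : (nat L n).mem (om L) = ⊤ := by
  rw [mem_om, eq_top_iff]
  refine le_trans ?_ (le_iSup _ (ULift.up n))
  rw [eq_refl]

theorem thm : G_INF.{u} := by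
  intro L _
  refine ⟨om L, ⟨nat L 0, nat_mem_om 0, mem_zero⟩, fun x => ?_⟩
  have hext : Ext (fun x : BSet L => ⨆ y : BSet L, (y.mem (om L) ⊓
    ⨅ z : BSet L, ((z.mem y ⇨ (z.mem x ⊔ z.eq x)) ⊓ ((z.mem x ⊔ z.eq x) ⇨ z.mem y)))) := by
    refine Ext.iSup fun y => Ext.inf (Ext.const _) (Ext.iInf fun z => Ext.inf ?_ ?_)
    · exact Ext.himp (Ext.const _) (Ext.sup (Ext.mem_right z) (Ext.eq_right z))
    · exact Ext.himp (Ext.sup (Ext.mem_right z) (Ext.eq_right z)) (Ext.const _)
  rw [mem_om]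
  refine iSup_le fun n => ?_
  refine le_trans ?_ (hext (nat L n.down) x)
  rw [eq_comm' x]
  refine le_inf le_rfl (le_trans le_top ?_)
  refine le_trans ?_ (le_iSup _ (nat L (n.down + 1)))
  rw [nat_mem_om, top_inf_eq]
  refine le_iInf fun z => ?_
  rw [mem_succ, himp_self, inf_idem]

end Pool.Agent.Helper97.Ku.PkInf
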