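import Pool.Agent.Helper97.Ku.GoalsC

/-! Packet RDI. -/

namespace Pool.Agent.Helper97.Ku.PkRdi

open Set

theorem rs_rs_self (p : Cond) (D : Set Coord) : (p.rs D).rs D = p.rs D := by
  rw [p.rs_rs, inter_self]

/-- Amalgamation with an extension of the restriction. -/
theorem ext_of_le {p w : Cond} {D : Set Coord} (h : w ≤ p.rs D) :
    ∃ p' : Cond, p' ≤ p ∧ p' ≤ w.rs D ∧ p'.rs D = w.rs D := by
  have h1 : w.rs D ≤ p.rs D := by
    have := Cond.rs_mono h D
    rwa [rs_rs_self] at this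
  exact ⟨am p (w.rs D) (cmp_of_le h1 (Cond.supp_rs_subset _ _)), am_le_left _, am_le_right _,
    am_rs h1 (Cond.supp_rs_subset _ _)⟩

theorem rd : G_RD := by
  intro I b D q hC hq i v hv
  have key : ∀ w, w ≤ v.rs D → w ≤ q := fun w hw => by
    refine hw.trans ?_
    have := Cond.rs_mono hv D
    rwa [Cond.rs_eq_self hq] at this
  constructor
  · intro hvi
    by_contra h
    obtain ⟨w, hw, hw'⟩ := RO.not_mem_iff.mp h
    obtain ⟨v', h1, h2, h3⟩ := ext_of_le hw
    exact hC i v' w (h1.trans hv) (key w hw) h3 (RO.lower h1 hvi) hw'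
  · intro hvi
    by_contra h
    rw [RO.mem_compl] at h
    push Not at h
    obtain ⟨w, hw, hw'⟩ := h
    obtain ⟨v', h1, h2, h3⟩ := ext_of_le hw
    exact hC i w v' (key w hw) (h1.trans hv) h3.symm hw' (RO.lower h1 hvi)

open Classical in
theorem int : G_INT := by
  intro I b A B q hA hB i q1 q2 h1 h2 he hq1 hq2
  have hg : q1.g = q2.g := by
    have := congrArg Cond.g he
    simpa using this
  have hS : q1.S = q2.S := by
    have := congrArg Cond.S he
    simpa using this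
  have hv : ∀ c, c ∈ A → c ∈ B → q1.v c = q2.v c := fun c ha hb => by
    have := congrArg (fun p : Cond => p.v c) he
    simpa [Cond.rs_v_mem _ (mem_inter ha hb)] using this
  let q3 : Cond :=
    { g := q1.g
      S := q1.S
      v := fun c => if c ∈ B ∧ c ∉ A then q2.v c else q1.v c
      S_ct := q1.S_ct
      S_ne := q1.S_ne
      S_sub := q1.S_sub
      S_spl := q1.S_spl
      v_ct := by
        refine (q1.v_ct.union q2.v_ct).mono fun c hc => ?_
        by_contra hn
        simp only [mem_union, mem_ofPred_eq, not_or, not_not] at hn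
        exact hc (by simp [hn.1, hn.2])
      v_ok := by
        intro c x hx
        by_cases hc : c ∈ B ∧ c ∉ A
        · rw [if_pos hc] at hx
          rw [hS]
          exact q2.v_ok c x hx
        · rw [if_neg hc] at hx
          exact q1.v_ok c x hx }
  have h3 : q3 ≤ q := by
    refine ⟨h1.1, h1.2.1, fun c x hx => ?_⟩
    by_cases hc : c ∈ B ∧ c ∉ A
    · obtain ⟨y, hy, hy'⟩ := h2.2.2 c x hx
      refine ⟨y, ?_, hy'⟩
      change (if c ∈ B ∧ c ∉ A then q2.v c else q1.v c) = some y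
      rw [if_pos hc]; exact hy
    · obtain ⟨y, hy, hy'⟩ := h1.2.2 c x hx
      refine ⟨y, ?_, hy'⟩
      change (if c ∈ B ∧ c ∉ A then q2.v c else q1.v c) = some y
      rw [if_neg hc]; exact hy
  have hA3 : q3.rs A = q1.rs A := by
    refine Cond.ext rfl rfl ?_
    funext c
    by_cases hc : c ∈ A
    · rw [Cond.rs_v_mem _ hc, Cond.rs_v_mem _ hc]
      change (if c ∈ B ∧ c ∉ A then q2.v c else q1.v c) = q1.v c
      rw [if_neg (fun h => h.2 hc)]
    · rw [Cond.rs_v_not _ hc, Cond.rs_v_not _ hc]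
  have hB3 : q3.rs B = q2.rs B := by
    refine Cond.ext hg hS ?_
    funext c
    by_cases hc : c ∈ B
    · rw [Cond.rs_v_mem _ hc, Cond.rs_v_mem _ hc]
      change (if c ∈ B ∧ c ∉ A then q2.v c else q1.v c) = q2.v c
      by_cases ha : c ∈ A
      · rw [if_neg (fun h => h.2 ha)]; exact hv c ha hc
      · rw [if_pos ⟨hc, ha⟩]
    · rw [Cond.rs_v_not _ hc, Cond.rs_v_not _ hc]
  obtain ⟨r, hr, hr'⟩ := RO.mem_or_compl (a := b i) q3
  rcases hr' with hr' | hr'
  · have hle : r ≤ q2.rs B := by rw [← hB3]; exact hr.trans (Cond.le_rs _ _)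
    obtain ⟨q2', k1, k2, k3⟩ := ext_of_le hle
    exact hB i r q2' (hr.trans h3) (k1.trans h2) k3.symm hr' (RO.lower k1 hq2)
  · have hle : r ≤ q1.rs A := by rw [← hA3]; exact hr.trans (Cond.le_rs _ _)
    obtain ⟨q1', k1, k2, k3⟩ := ext_of_le hle
    exact hA i q1' r (k1.trans h1) (hr.trans h3) k3 (RO.lower k1 hq1) hr'

theorem sp2 : G_SP2 := by
  intro I b D p hn u v hu hv huv
  have h := hn u hu
  unfold Capt at h
  push Not at h
  obtain ⟨i, u1, u2, h1, h2, he, hb1, hb2⟩ := h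
  have hd : u1 ≤ v.rs D := by
    rw [← huv]; exact h1.trans (Cond.le_rs _ _)
  obtain ⟨v1, k1, k2, k3⟩ := ext_of_le hd
  obtain ⟨v', hr, hr'⟩ := RO.mem_or_compl (a := b i) v1
  have hv' : v'.rs D ≤ u1.rs D := by
    rw [← k3]; exact Cond.rs_mono hr D
  rcases hr' with hr' | hr'
  · have hle : v' ≤ u2.rs D := by
      rw [← he]; exact (Cond.le_rs v' D).trans hv'
    obtain ⟨u', m1, m2, m3⟩ := ext_of_le hle
    exact ⟨i, u', v', m1.trans h2, hr.trans k1, m3, Or.inr ⟨RO.lower m1 hb2, hr'⟩⟩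
  · have hle : v' ≤ u1.rs D := (Cond.le_rs v' D).trans hv'
    obtain ⟨u', m1, m2, m3⟩ := ext_of_le hle
    exact ⟨i, u', v', m1.trans h1, hr.trans k1, m3, Or.inl ⟨RO.lower m1 hb1, hr'⟩⟩

end Pool.Agent.Helper97.Ku.PkRdi
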